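import Pool.Agent.W61h.FGS.Fin

/-!
# The kernel of `y_ij ↦ g(x_i) + h(x_j)` is finitely generated up to symmetry
-/

set_option autoImplicit false

namespace Pool.Agent.Results.MP_f70651_al.SumOfUnivariate

open MvPolynomial Pool.Agent.H503R3.EGB

/-- For all one-variable complex polynomials `g` and `h`, and `f(s, t) = g(s) + h(t)`, the kernel
of `y_ij ↦ f(x_i, x_j)` is finitely generated up to symmetry. -/
theorem result (g h : Polynomial ℂ) :
    FGUpToSymmetry (kerPhi (Polynomial.aeval (X 0) g + Polynomial.aeval (X 1) h)) :=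
  Pool.Agent.W61h.FGS.fg_add g h

end Pool.Agent.Results.MP_f70651_al.SumOfUnivariate
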